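import Pool.Agent.H61.KU.TT

/-!
# Kuiper board, module PHI: coordinates on the part of `VA` near the graph
-/

open Topology Set
open Pool.Agent.H59 Pool.Agent.H64.LB Pool.Agent.H24.LB
open scoped unitInterval

namespace Pool.Agent.H91.KU.PHI

open Pool.Agent.H61.KU

theorem hp_add (u w w' : Fin 2 → ℂ) : hp u (w + w') = hp u w + hp u w' := by
  simp only [hp, Pi.add_apply]
  ring

theorem hp_smul (a : ℂ) (u w : Fin 2 → ℂ) : hp u (a • w) = a * hp u w := by
  simp only [hp, Pi.smul_apply, smul_eq_mul]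
  ring

theorem hp_smul_left (a : ℂ) (u w : Fin 2 → ℂ) :
    hp (a • u) w = (starRingEnd ℂ) a * hp u w := by
  simp only [hp, Pi.smul_apply, smul_eq_mul, map_mul]
  ring

theorem hp_JJ_left (u : Fin 2 → ℂ) : hp (JJ u) u = 0 := by
  simp only [hp, JJ, Matrix.cons_val_zero, Matrix.cons_val_one, map_neg, Complex.conj_conj]
  ring

theorem hp_JJ_JJ (u : Fin 2 → ℂ) : hp (JJ u) (JJ u) = hp u u := by
  simp only [hp, JJ, Matrix.cons_val_zero, Matrix.cons_val_one, map_neg, Complex.conj_conj]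
  ring

/-- the vector `d + m J d` -/
def dm (d : Fin 2 → ℂ) (m : ℂ) : Fin 2 → ℂ := d + m • JJ d

theorem hp_dm (d : Fin 2 → ℂ) (m : ℂ) : hp d (dm d m) = hp d d := by
  rw [dm, hp_add, hp_smul, hp_JJ, mul_zero, add_zero]

theorem hp_JJ_dm (d : Fin 2 → ℂ) (m : ℂ) : hp (JJ d) (dm d m) = m * hp d d := by
  rw [dm, hp_add, hp_smul, hp_JJ_left, hp_JJ_JJ, zero_add]

theorem dm_ne {d : Fin 2 → ℂ} (h : d ≠ 0) (m : ℂ) : dm d m ≠ 0 := by
  intro h0
  apply hp_self_ne h
  rw [← hp_dm d m, h0]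
  simp [hp]

theorem dm_zero (d : Fin 2 → ℂ) : dm d 0 = d := by
  rw [dm, zero_smul, add_zero]

/-- `α s` in terms of a vector of the line -/
theorem alpha_eq (y : NN) (d : NZ 1) (hd : pt d = rho y) : y = PNN d.1 (lin y d.1) d.2 := by
  obtain ⟨u, c, hu, rfl⟩ := exists_PNN y
  rw [rho_PNN, ← P2_eq d.2] at hd
  obtain ⟨a, ha, h⟩ := (P2_eq_iff hu d.2).1 hd.symm
  have h2 := hp_self_ne hu
  have h3 : lin (PNN u c hu) d.1 = a * c := by
    rw [lin_PNN, h, hp_smul]
    field_simp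
  rw [h3]
  refine Subtype.ext ?_
  change P3 u c = P3 d.1 (a * c)
  rw [h]
  exact (P3_smul a ha (fun h => hu h.1)).symm

/-- the coordinates -/
noncomputable def Phi (α : C(S2, NN)) (x : UU (rho.comp α) × ℂ) : S2 × NN :=
  (x.1.1.1, PNN (dm x.1.1.2.1 x.2) (lin (α x.1.1.1) x.1.1.2.1 + 1) (dm_ne x.1.1.2.2 x.2))

theorem continuous_Phi (α : C(S2, NN)) : Continuous (Phi α) := by
  have hs : Continuous fun x : UU (rho.comp α) × ℂ => x.1.1.1 :=
    continuous_fst.comp (continuous_subtype_val.comp continuous_fst)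
  have hd : Continuous fun x : UU (rho.comp α) × ℂ => x.1.1.2.1 :=
    continuous_subtype_val.comp (continuous_snd.comp (continuous_subtype_val.comp continuous_fst))
  refine hs.prodMk (Continuous.subtype_mk ?_ _)
  refine continuous_P3 ?_ ?_ fun x h => dm_ne x.1.1.2.2 x.2 h.1
  · exact hd.add (continuous_snd.smul (continuous_JJ.comp hd))
  · exact (continuous_lin (α.continuous.comp hs) hd).add continuous_const

theorem pj_pt {l : PN 1} {d : NZ 1} (h : pt d = l) (w : Fin 2 → ℂ) :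
    pj l w = (hp d.1 w / hp d.1 d.1) • d.1 := by
  rw [← h, ← P2_eq d.2, pj_P2 d.2]

theorem hp_pj {l : PN 1} {w : Fin 2 → ℂ} (h : pj l w ≠ 0) :
    hp (pj l w) w / hp (pj l w) (pj l w) = 1 := by
  obtain ⟨d, hd⟩ := exists_pt l
  have h1 := pj_pt hd w
  have h2 := hp_self_ne d.2
  rw [div_eq_one_iff_eq (hp_self_ne h)]
  rw [h1, hp_smul_left, hp_smul_left, hp_smul]
  field_simp

theorem pt_pj {l : PN 1} {w : Fin 2 → ℂ} {γ : ℂ} (hγ : γ ≠ 0) (h : pj l w ≠ 0) :
    pt (⟨γ⁻¹ • pj l w, smul_ne_zero (inv_ne_zero hγ) h⟩ : NZ 1) = l := by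
  obtain ⟨d, rfl⟩ := exists_pt l
  have h1 := pj_pt (rfl : pt d = pt d) w
  have h3 : hp d.1 w / hp d.1 d.1 ≠ 0 := by
    intro h0
    apply h
    rw [h1, h0, zero_smul]
  refine (pt_eq_of_rel (γ⁻¹ * (hp d.1 w / hp d.1 d.1)) (mul_ne_zero (inv_ne_zero hγ) h3) ?_).symm
  change γ⁻¹ • pj (pt d) w = _
  rw [h1, smul_smul]

/-- the first two coordinates -/
def uu (v : Fin 3 → ℂ) : Fin 2 → ℂ := ![v 0, v 1]

/-- the projection of `(v 0, v 1)` to the line of `α s` -/
noncomputable def pp (α : C(S2, NN)) (x : S2 × NZ 2) : Fin 2 → ℂ :=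
  pj (rho (α x.1)) (uu x.2.1)

/-- the number `γ` -/
noncomputable def gg (α : C(S2, NN)) (x : S2 × NZ 2) : ℂ := x.2.1 2 - lin (α x.1) (pp α x)

/-- the number `m` -/
noncomputable def mm (α : C(S2, NN)) (x : S2 × NZ 2) : ℂ :=
  hp (JJ (pp α x)) (uu x.2.1) / hp (pp α x) (pp α x) * (starRingEnd ℂ) (gg α x) / gg α x

/-- the open set of vectors -/
def WW (α : C(S2, NN)) : Set (S2 × NZ 2) := {x | pp α x ≠ 0 ∧ gg α x ≠ 0}

theorem continuous_uu : Continuous fun x : S2 × NZ 2 => uu x.2.1 := by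
  have hv : ∀ i, Continuous fun x : S2 × NZ 2 => x.2.1 i := fun i =>
    (continuous_apply i).comp (continuous_subtype_val.comp continuous_snd)
  refine continuous_pi fun i => ?_
  fin_cases i
  · exact hv 0
  · exact hv 1

theorem continuous_pp (α : C(S2, NN)) : Continuous (pp α) :=
  continuous_pj (rho.continuous.comp (α.continuous.comp continuous_fst)) continuous_uu

theorem continuous_gg (α : C(S2, NN)) : Continuous (gg α) := by
  have hv : Continuous fun x : S2 × NZ 2 => x.2.1 2 :=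
    (continuous_apply 2).comp (continuous_subtype_val.comp continuous_snd)
  exact hv.sub (continuous_lin (α.continuous.comp continuous_fst) (continuous_pp α))

theorem isOpen_WW (α : C(S2, NN)) : IsOpen (WW α) :=
  (isOpen_ne.preimage (continuous_pp α)).inter (isOpen_ne.preimage (continuous_gg α))

theorem continuous_hp {T : Type} [TopologicalSpace T] {f g : T → Fin 2 → ℂ} (hf : Continuous f)
    (hg : Continuous g) : Continuous fun t => hp (f t) (g t) := by
  have hf' : ∀ i, Continuous fun t => f t i := fun i => (continuous_apply i).comp hf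
  have hg' : ∀ i, Continuous fun t => g t i := fun i => (continuous_apply i).comp hg
  exact ((Complex.continuous_conj.comp (hf' 0)).mul (hg' 0)).add
    ((Complex.continuous_conj.comp (hf' 1)).mul (hg' 1))

/-- the inverse map -/
noncomputable def Psi (α : C(S2, NN)) (x : WW α) : UU (rho.comp α) × ℂ :=
  (⟨(x.1.1, ⟨(gg α x.1)⁻¹ • pp α x.1, smul_ne_zero (inv_ne_zero x.2.2) x.2.1⟩),
    pt_pj x.2.2 x.2.1⟩, mm α x.1)

theorem continuous_Psi (α : C(S2, NN)) : Continuous (Psi α) := by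
  have hg : Continuous fun x : WW α => gg α x.1 := (continuous_gg α).comp continuous_subtype_val
  have hp' : Continuous fun x : WW α => pp α x.1 := (continuous_pp α).comp continuous_subtype_val
  have hu : Continuous fun x : WW α => uu x.1.2.1 := continuous_uu.comp continuous_subtype_val
  refine Continuous.prodMk (Continuous.subtype_mk (Continuous.prodMk ?_
    (Continuous.subtype_mk ?_ _)) _) ?_
  · exact continuous_fst.comp continuous_subtype_val
  · exact (hg.inv₀ fun x => x.2.2).smul hp'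
  · refine Continuous.div (Continuous.mul (Continuous.div ?_ ?_ fun x => hp_self_ne x.2.1) ?_) hg
      fun x => x.2.2
    · exact continuous_hp (continuous_JJ.comp hp') hu
    · exact continuous_hp hp' hp'
    · exact Complex.continuous_conj.comp hg

theorem uu_ne {α : C(S2, NN)} {x : S2 × NZ 2} (h : pp α x ≠ 0) : uu x.2.1 ≠ 0 := by
  intro h0
  apply h
  rw [pp, h0]
  funext i
  simp [pj]

theorem P3_uu (v : NZ 2) : P3 (uu v.1) (v.1 2) = pt v := by
  have hv := v3_zero v.1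
  rw [uu, P3_eq (by rw [hv]; exact v.2)]
  exact congrArg pt (Subtype.ext hv)

/-- `Φ ∘ Ψ` -/
theorem Phi_Psi (α : C(S2, NN)) (x : WW α) :
    (Phi α (Psi α x)).1 = x.1.1 ∧ (Phi α (Psi α x)).2.1 = pt x.1.2 := by
  refine ⟨rfl, ?_⟩
  obtain ⟨x, hp0, hg0⟩ := x
  have hc : (starRingEnd ℂ) (gg α x) ≠ 0 := conj_ne hg0
  have h1 : uu x.2.1 = pp α x +
      (hp (JJ (pp α x)) (uu x.2.1) / hp (pp α x) (pp α x)) • JJ (pp α x) := by
    have h := decomp hp0 (uu x.2.1)
    have h2 : hp (pp α x) (uu x.2.1) / hp (pp α x) (pp α x) = 1 := hp_pj hp0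
    rw [h2, one_smul] at h
    exact h
  have h2 : dm ((gg α x)⁻¹ • pp α x) (mm α x) = (gg α x)⁻¹ • uu x.2.1 := by
    rw [dm, JJ_smul]
    conv_rhs => rw [h1]
    rw [smul_add, smul_smul, smul_smul, mm]
    congr 2
    rw [map_inv₀]
    field_simp
  have h3 : lin (α x.1) ((gg α x)⁻¹ • pp α x) + 1 = (gg α x)⁻¹ * x.2.1 2 := by
    rw [lin_smul]
    have : x.2.1 2 = gg α x + lin (α x.1) (pp α x) := by rw [gg]; ring
    rw [this]
    field_simp
    ring
  change P3 (dm ((gg α x)⁻¹ • pp α x) (mm α x)) (lin (α x.1) ((gg α x)⁻¹ • pp α x) + 1) = pt x.2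
  rw [h2, h3, P3_smul _ (inv_ne_zero hg0) (fun h => uu_ne hp0 h.1), P3_uu]

/-- `Ψ ∘ Φ`, on vectors -/
theorem Psi_Phi (α : C(S2, NN)) (y : UU (rho.comp α) × ℂ) (x : S2 × NZ 2)
    (h1 : (Phi α y).1 = x.1) (h2 : (Phi α y).2.1 = pt x.2) :
    ∃ h : x ∈ WW α, Psi α ⟨x, h⟩ = y := by
  obtain ⟨⟨⟨s, d⟩, hd⟩, m⟩ := y
  obtain ⟨s', v⟩ := x
  change s = s' at h1
  subst h1
  change P3 (dm d.1 m) (lin (α s) d.1 + 1) = pt v at h2
  rw [← P3_uu v] at h2
  have hd' : pt d = rho (α s) := hd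
  have hdd := hp_self_ne d.2
  have hv0 : ¬ (uu v.1 = 0 ∧ v.1 2 = 0) := by
    rintro ⟨h3, h4⟩
    apply v.2
    rw [← v3_zero v.1]
    exact v3_eq_zero.2 ⟨h3, h4⟩
  obtain ⟨k, hk, hu, hc⟩ := (P3_eq_iff (fun h => dm_ne d.2 m h.1) hv0).1 h2
  have hk' := conj_ne hk
  have hpp : pp α (s, v) = k • d.1 := by
    change pj (rho (α s)) (uu v.1) = k • d.1
    rw [pj_pt hd', hu, hp_smul, hp_dm]
    congr 1
    field_simp
  have hgg : gg α (s, v) = k := by
    rw [gg, hpp]
    change v.1 2 - lin (α s) (k • d.1) = k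
    rw [hc, lin_smul]
    ring
  have hmm : mm α (s, v) = m := by
    rw [mm, hpp, hgg, JJ_smul, hp_smul_left, Complex.conj_conj]
    change k * hp (JJ d.1) (uu v.1) / hp (k • d.1) (k • d.1) * (starRingEnd ℂ) k / k = m
    rw [hu, hp_smul, hp_JJ_dm, hp_smul_left, hp_smul]
    field_simp
  refine ⟨⟨by rw [hpp]; exact smul_ne_zero hk d.2, by rw [hgg]; exact hk⟩, ?_⟩
  refine Prod.ext (Subtype.ext (Prod.ext rfl (Subtype.ext ?_))) hmm
  change (gg α (s, v))⁻¹ • pp α (s, v) = d.1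
  rw [hgg, hpp, smul_smul, inv_mul_cancel₀ hk, one_smul]

theorem Phi_inj (α : C(S2, NN)) : Function.Injective (Phi α) := by
  intro y y' h
  obtain ⟨v, hv⟩ := exists_pt (Phi α y).2.1
  obtain ⟨h1, h2⟩ := Psi_Phi α y ((Phi α y).1, v) rfl hv.symm
  obtain ⟨h3, h4⟩ := Psi_Phi α y' ((Phi α y).1, v) (by rw [h]) (by rw [← h]; exact hv.symm)
  exact h2.symm.trans h4

theorem Phi_open (α : C(S2, NN)) : IsOpenMap (Phi α) := by
  intro U hU
  let W2 : Set (S2 × NZ 2) := Subtype.val '' (Psi α ⁻¹' U)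
  have hW2 : IsOpen W2 := (isOpen_WW α).isOpenMap_subtype_val _ (hU.preimage (continuous_Psi α))
  have h1 : IsOpen ((fun p : S2 × NZ 2 => ((p.1, pt p.2) : S2 × PN 2)) '' W2) :=
    (isOpenQuotientMap_idpt S2 2).isOpenMap _ hW2
  have h2 : Phi α '' U = (fun p : S2 × NN => ((p.1, p.2.1) : S2 × PN 2)) ⁻¹'
      ((fun p : S2 × NZ 2 => ((p.1, pt p.2) : S2 × PN 2)) '' W2) := by
    ext z
    constructor
    · rintro ⟨y, hy, rfl⟩
      obtain ⟨v, hv⟩ := exists_pt (Phi α y).2.1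
      obtain ⟨h3, h4⟩ := Psi_Phi α y ((Phi α y).1, v) rfl hv.symm
      refine ⟨((Phi α y).1, v), ⟨⟨_, h3⟩, ?_, rfl⟩, ?_⟩
      · rw [mem_preimage, h4]
        exact hy
      · exact Prod.ext rfl hv
    · rintro ⟨x, ⟨w, hw, rfl⟩, hx⟩
      refine ⟨Psi α w, hw, ?_⟩
      obtain ⟨h3, h4⟩ := Phi_Psi α w
      have h5 : w.1.1 = z.1 := congrArg Prod.fst hx
      have h6 : pt w.1.2 = z.2.1 := congrArg Prod.snd hx
      exact Prod.ext (h3.trans h5) (Subtype.ext (h4.trans h6))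
  rw [h2]
  exact h1.preimage (continuous_fst.prodMk (continuous_subtype_val.comp continuous_snd))

theorem rho_Phi (α : C(S2, NN)) (x : UU (rho.comp α) × ℂ) :
    rho (Phi α x).2 = P2 (dm x.1.1.2.1 x.2) := rho_PNN (dm_ne x.1.1.2.2 x.2)

theorem delta_eq {α : C(S2, NN)} (x : UU (rho.comp α)) : rho (α x.1.1) = P2 x.1.2.1 := by
  rw [P2_eq x.1.2.2]
  exact x.2.symm

theorem pf_phi : T_PHI := by
  intro α
  refine ⟨Phi α, IsOpenEmbedding.of_continuous_injective_isOpenMap (continuous_Phi α) (Phi_inj α)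
    (Phi_open α), ?_, ?_, ?_⟩
  · rintro _ ⟨x, rfl⟩
    have hdd := hp_self_ne x.1.1.2.2
    constructor
    · intro h
      have h1 := alpha_eq (α x.1.1.1) x.1.1.2 x.1.2
      change PNN (dm x.1.1.2.1 x.2) (lin (α x.1.1.1) x.1.1.2.1 + 1) (dm_ne x.1.1.2.2 x.2) =
        α x.1.1.1 at h
      have h2 : P3 (dm x.1.1.2.1 x.2) (lin (α x.1.1.1) x.1.1.2.1 + 1) =
          P3 x.1.1.2.1 (lin (α x.1.1.1) x.1.1.2.1) := congrArg Subtype.val (h.trans h1)
      obtain ⟨k, hk, hu, hc⟩ := (P3_eq_iff (fun h => dm_ne x.1.1.2.2 x.2 h.1)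
        (fun h => x.1.1.2.2 h.1)).1 h2
      have h3 : hp x.1.1.2.1 x.1.1.2.1 = k * hp x.1.1.2.1 x.1.1.2.1 := by
        have := congrArg (hp x.1.1.2.1) hu
        rwa [hp_smul, hp_dm] at this
      have h4 : k = 1 := by
        have : (k - 1) * hp x.1.1.2.1 x.1.1.2.1 = 0 := by linear_combination -h3
        rcases mul_eq_zero.1 this with h5 | h5
        · exact sub_eq_zero.1 h5
        · exact absurd h5 hdd
      rw [h4, one_mul] at hc
      exact one_ne_zero (α := ℂ) (by linear_combination -hc)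
    · intro h
      rw [rho_Phi] at h
      change P2 (dm x.1.1.2.1 x.2) = perp (rho (α x.1.1.1)) at h
      rw [delta_eq, perp_P2 x.1.1.2.2] at h
      obtain ⟨k, hk, hu⟩ := (P2_eq_iff (dm_ne x.1.1.2.2 x.2) (JJ_ne x.1.1.2.2)).1 h
      have h3 : hp x.1.1.2.1 (JJ x.1.1.2.1) = k * hp x.1.1.2.1 x.1.1.2.1 := by
        rw [hu, hp_smul, hp_dm]
      rw [hp_JJ] at h3
      exact mul_ne_zero hk hdd h3.symm
  · rintro ⟨s, y⟩ ⟨h1, h2⟩
    by_cases h3 : rho y = rho (α s)
    · right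
      obtain ⟨u, c, hu, rfl⟩ := exists_PNN y
      rw [rho_PNN, P2_eq hu] at h3
      have h4 := alpha_eq (α s) ⟨u, hu⟩ h3
      have hg : c - lin (α s) u ≠ 0 := by
        intro h0
        apply h1
        change PNN u c hu = α s
        rw [h4]
        have : c = lin (α s) u := sub_eq_zero.1 h0
        change PNN u c hu = PNN u (lin (α s) u) hu
        rw [← this]
      have hg' := inv_ne_zero hg
      refine ⟨(⟨(s, ⟨(c - lin (α s) u)⁻¹ • u, smul_ne_zero hg' hu⟩), ?_⟩, 0), ?_⟩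
      · change pt _ = rho (α s)
        rw [← h3]
        exact (pt_eq_of_rel _ hg' rfl).symm
      · refine Prod.ext rfl (Subtype.ext ?_)
        change P3 (dm ((c - lin (α s) u)⁻¹ • u) 0) (lin (α s) ((c - lin (α s) u)⁻¹ • u) + 1) = P3 u c
        have h5 : lin (α s) ((c - lin (α s) u)⁻¹ • u) + 1 = (c - lin (α s) u)⁻¹ * c := by
          rw [lin_smul]
          field_simp
          ring
        rw [dm_zero, h5, P3_smul _ hg' (fun h => hu h.1)]
    · left
      exact h3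
  · intro x
    have hdd := hp_self_ne x.1.1.2.2
    change rho (Phi α x).2 ≠ rho (α x.1.1.1) ↔ x.2 ≠ 0
    rw [rho_Phi, delta_eq, not_iff_not]
    constructor
    · intro h
      obtain ⟨k, hk, hu⟩ := (P2_eq_iff (dm_ne x.1.1.2.2 x.2) x.1.1.2.2).1 h
      have h3 : hp (JJ x.1.1.2.1) x.1.1.2.1 = k * (x.2 * hp x.1.1.2.1 x.1.1.2.1) := by
        have := congrArg (hp (JJ x.1.1.2.1)) hu
        rwa [hp_smul, hp_JJ_dm] at this
      rw [hp_JJ_left] at h3
      rcases mul_eq_zero.1 h3.symm with h4 | h4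
      · exact absurd h4 hk
      · rcases mul_eq_zero.1 h4 with h5 | h5
        · exact h5
        · exact absurd h5 hdd
    · intro h
      rw [h, dm_zero]

end Pool.Agent.H91.KU.PHI
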