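import Pool.Agent.H61.KU.TT

/-!
# Kuiper board, module T3N: the theorem for maps which miss `q0`
-/

open Topology Set
open Pool.Agent.H59 Pool.Agent.H64.LB Pool.Agent.H24.LB
open scoped unitInterval

namespace Pool.Agent.H91.KU.T3N

open Pool.Agent.H61.KU

theorem map_inc_eq (hHM : T_HM) (α : C(S2, NN)) :
    HH.map (ZMod 2) 2 ((inc (({q0} : Set (PN 2))ᶜ)).comp α) =
      HH.map (ZMod 2) 2 (iota.comp (rho.comp α)) := by
  refine hHM (ZMod 2) S2 (PN 2) _ _ ?_ 2
  exact inc_homotopic.comp (ContinuousMap.Homotopic.refl α)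

theorem pf_t3n (hHM : T_HM) (hS2 : T_S2H) (hU : T_UU2) (hZ : T_ZER) (hK : T_KKN) : T_T3N := by
  intro α β hd ha hb
  rw [map_inc_eq hHM α] at ha
  rw [map_inc_eq hHM β] at hb
  have hsub := hU (rho.comp α) ha
  let B : C(S2 × S2, ↥(DA α)) :=
    ⟨fun p => ⟨(p.1, β p.2), fun h => hd p.1 p.2 h.symm⟩,
      (continuous_fst.prodMk (β.continuous.comp continuous_snd)).subtype_mk _⟩
  have hB : (Prho.comp (inc (DA α))).comp B =
      (ContinuousMap.id S2).prodMap (rho.comp β) := by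
    ext p
    · rfl
    · rfl
  have h4 : HH.map (ZMod 2) 4 ((ContinuousMap.id S2).prodMap (rho.comp β)) = 0 := by
    ext z
    rw [← hB, HH.map_comp]
    exact hZ α hsub _
  refine hK (rho.comp β) ?_ h4
  intro h0
  obtain ⟨⟨e⟩, -⟩ := hS2 (ZMod 2)
  have h1 : ∀ z, HH.map (ZMod 2) 2 (iota.comp (rho.comp β)) z = 0 := by
    intro z
    rw [HH.map_comp, h0]
    simp
  have h2 : e.symm 1 = 0 := hb ((h1 _).trans (h1 _).symm)
  have h3 : (1 : ZMod 2) = 0 := by
    have := congrArg e h2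
    rwa [LinearEquiv.apply_symm_apply, map_zero] at this
  exact one_ne_zero h3

end Pool.Agent.H91.KU.T3N
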